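import Pool.Agent.Helper65.CS.Goals2

/-!
# Brute force for small inputs (BRF)
-/

namespace Pool.Agent.Helper67.CS

open Pool.Agent.Helper81.CC Pool.Agent.Helper78.DT Pool.Agent.Helper65.CS

theorem vl_ofFn {n : ℕ} (r : Fin n → Bool) (F : DList) : vl (List.ofFn r) F = DList.val r F := by
  induction F with
  | nil => rfl
  | cons e F ih =>
    have hlit : ∀ p : ℕ × Bool, (List.ofFn r).getD p.1 false =
        (if h : p.1 < n then r ⟨p.1, h⟩ else false) := by
      intro p
      by_cases h : p.1 < n
      · simp [List.getD, h]
      · simp [List.getD, h]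
    have hall : (e.1.all fun p => decide ((List.ofFn r).getD p.1 false = p.2)) = true ↔
        ∀ p ∈ e.1, (if h : p.1 < n then r ⟨p.1, h⟩ else false) = p.2 := by
      rw [List.all_eq_true]
      constructor
      · intro h p hp
        have := h p hp
        rw [decide_eq_true_eq, hlit] at this
        exact this
      · intro h p hp
        rw [decide_eq_true_eq, hlit]
        exact h p hp
    unfold DList.val
    split_ifs with hc
    · have h1 := hall.2 hc
      simp only [vl]
      rw [List.find?_cons_of_pos (by simpa using h1)]
    · have h1 : ¬ ((e.1.all fun p => decide ((List.ofFn r).getD p.1 false = p.2)) = true) :=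
        fun h => hc (hall.1 h)
      rw [← ih]
      simp only [vl]
      rw [List.find?_cons_of_neg (by simpa using h1)]

theorem brf (hX : PtxStmt) : BrfStmt := by
  intro M
  set S : List (List Bool) := (List.finite_length_le Bool M).toFinset.toList with hS
  refine ⟨fun z => (S.find? fun r => decide (r.length = z.1) && vl r z.2).getD [], ?_, ?_⟩
  · refine PolyTime.option_getD ?_ (by fun_prop)
    refine PolyTime.find? (l := fun _ => S)
      (f := fun (z : ℕ × DList) r => decide (r.length = z.1) && vl r z.2) (by fun_prop) ?_
    have h1 : PolyTime (fun y : (ℕ × DList) × List Bool => vl y.2 y.1.2) :=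
      (hX ((ℕ × DList) × List Bool)).2.2.2 _ _ (by fun_prop) (by fun_prop)
    fun_prop
  · rintro n F hM ⟨r, hr⟩
    have hn : n ≤ M := le_trans (Nat.le_add_right _ _) hM
    have hmem : List.ofFn r ∈ S := by
      rw [hS, Finset.mem_toList, Set.Finite.mem_toFinset]
      simpa using hn
    have hsome : (S.find? fun r => decide (r.length = n) && vl r F).isSome := by
      rw [List.find?_isSome]
      exact ⟨_, hmem, by simp [vl_ofFn, hr]⟩
    obtain ⟨r', hr'⟩ := Option.isSome_iff_exists.1 hsome
    have h2 := List.find?_some hr'
    simp only [Bool.and_eq_true, decide_eq_true_eq] at h2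
    obtain ⟨h3, h4⟩ := h2
    subst h3
    have h5 : List.ofFn (fun i : Fin r'.length => r'.get i) = r' := List.ofFn_get r'
    refine ⟨fun i => r'.get i, ?_, ?_⟩
    · rw [← vl_ofFn, h5]; exact h4
    · rw [h5]
      show (S.find? fun r => decide (r.length = r'.length) && vl r F).getD [] = r'
      rw [hr']; rfl

end Pool.Agent.Helper67.CS
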